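import Pool.Agent.Lib.MP_3764f3_co.MChain

/-! A degree argument for complete multipartite graphs. -/

set_option autoImplicit false

namespace Pool.Agent.Lib.MP_3764f3_co.DC

open Finset

variable {V : Type} [Fintype V] [DecidableEq V]

/-- Edges inside `S` between different classes, one of them in `J`. -/
def Wd (c : V → ℕ) (S : Finset V) (J : ℕ → Prop) : Set (V × V) :=
  {p | p.1 ∈ S ∧ p.2 ∈ S ∧ c p.1 < c p.2 ∧ (J (c p.1) ∨ J (c p.2))}

/-- Compatibility of edges and loops. -/
def Qm (c : V → ℕ) (R : V × V → V × V → Prop) (e f : Sym2 V) : Prop :=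
  (∀ v, e = s(v, v) → ∃ x ∈ f, c x = c v) ∧ (∀ v, f = s(v, v) → ∃ x ∈ e, c x = c v) ∧
    ∀ p q : V × V, c p.1 < c p.2 → c q.1 < c q.2 → e = s(p.1, p.2) → f = s(q.1, q.2) → R p q

omit [Fintype V] [DecidableEq V] in
lemma pair_eq {c : V → ℕ} {p q : V × V} (hp : c p.1 < c p.2) (hq : c q.1 < c q.2)
    (e : s(p.1, p.2) = s(q.1, q.2)) : p = q := by
  rcases Sym2.eq_iff.mp e with k | k
  · exact Prod.ext k.1 k.2
  · rw [k.1, k.2] at hp
    omega

omit [Fintype V] [DecidableEq V] in
lemma not_loop {c : V → ℕ} {p : V × V} (hp : c p.1 < c p.2) (v : V) : s(p.1, p.2) ≠ s(v, v) := by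
  intro e
  simp only [Sym2.eq_iff, or_self] at e
  rw [e.1, e.2] at hp
  omega

omit [Fintype V] in
lemma multi_ne {c : V → ℕ} {R : V × V → V × V → Prop}
    (h : ∀ S J, (Wd c S J).Nonempty → NE R (Wd c S J)) (S : Finset V) (hS : S.Nonempty) :
    NE (Qm c R) {e | (∃ p ∈ Wd c S fun _ => True, s(p.1, p.2) = e) ∨ ∃ v ∈ S, e = s(v, v)} := by
  have ll : ∀ v w, c v = c w → Qm c R s(v, v) s(w, w) := fun v w k =>
    ⟨fun u e => ⟨w, by simp, by simp only [Sym2.eq_iff, or_self, and_self] at e; rw [← e, k]⟩,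
      fun u e => ⟨v, by simp, by simp only [Sym2.eq_iff, or_self, and_self] at e; rw [← e, k]⟩,
      fun p q hp _ e => absurd e.symm (not_loop hp v)⟩
  have im : ∀ J, (Wd c S J).Nonempty → NE (Qm c R) ((fun p : V × V => s(p.1, p.2)) '' Wd c S J) :=
    fun J k => (h S J k).map _ (fun p hp q hq e => pair_eq hp.2.2.1 hq.2.2.1 e) fun p hp q hq =>
      ⟨fun x => x.2.2 p q hp.2.2.1 hq.2.2.1 rfl rfl, fun x =>
        ⟨fun v e => absurd e (not_loop hp.2.2.1 v), fun v e => absurd e (not_loop hq.2.2.1 v),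
          fun p' q' hp' hq' e1 e2 => pair_eq hp.2.2.1 hp' e1 ▸ pair_eq hq.2.2.1 hq' e2 ▸ x⟩⟩
  by_cases k : (Wd c S fun _ => True).Nonempty
  swap
  · obtain ⟨v, hv⟩ := hS
    refine .cone (c := s(v, v)) (Or.inr ⟨v, hv, rfl⟩) ?_
    rintro _ (⟨p, hp, -⟩ | ⟨w, hw, rfl⟩)
    · exact absurd ⟨p, hp⟩ k
    · refine ll v w (by_contra fun n => k ?_)
      rcases Nat.lt_or_gt_of_ne n with l | l
      exacts [⟨(v, w), hv, hw, l, Or.inl trivial⟩, ⟨(w, v), hw, hv, l, Or.inl trivial⟩]
  have main : ∀ L : Finset V, L ⊆ S → NE (Qm c R)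
      {e | (∃ p ∈ Wd c S fun _ => True, s(p.1, p.2) = e) ∨ ∃ v ∈ L, e = s(v, v)} := by
    intro L
    induction L using Finset.induction_on with
    | empty => exact fun _ => by simpa [Set.image] using im _ k
    | insert v L vL ih =>
      intro hL
      rw [insert_subset_iff] at hL
      refine .del (f := s(v, v)) (Or.inr ⟨v, by simp, rfl⟩) ?_ ?_
      · convert ih hL.2 using 1
        ext e
        constructor
        · rintro ⟨a | ⟨w, hw, rfl⟩, n⟩
          · exact Or.inl a
          · exact Or.inr ⟨w, (mem_insert.mp hw).resolve_left fun j => n (by rw [j]), rfl⟩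
        · rintro (⟨p, hp, rfl⟩ | ⟨w, hw, rfl⟩)
          · exact ⟨Or.inl ⟨p, hp, rfl⟩, not_loop hp.2.2.1 v⟩
          · exact ⟨Or.inr ⟨w, mem_insert_of_mem hw, rfl⟩, fun j => vL (by simp_all)⟩
      · refine (im (· = c v) ?_).join _ ?_ ?_
        · obtain ⟨p, h1, h2, h3, -⟩ := k
          rcases lt_trichotomy (c v) (c p.2) with l | l | l
          exacts [⟨(v, p.2), hL.1, h2, l, Or.inl rfl⟩, ⟨p, h1, h2, h3, Or.inr l.symm⟩,
            ⟨(p.2, v), h2, hL.1, l, Or.inr rfl⟩]
        · rintro _ ⟨p, ⟨h1, h2, h3, h4⟩, rfl⟩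
          refine ⟨Or.inl ⟨p, ⟨h1, h2, h3, Or.inl trivial⟩, rfl⟩, not_loop h3 v, fun u e => ?_,
            fun u e => absurd e (not_loop h3 u), fun q _ hq _ e => absurd e.symm (not_loop hq v)⟩
          simp only [Sym2.eq_iff, or_self, and_self] at e
          rw [← e]
          exact h4.elim (fun j => ⟨p.1, by simp, j⟩) fun j => ⟨p.2, by simp, j⟩
        · rintro _ ⟨p, ⟨h1, h2, h3, h4⟩, rfl⟩ y ⟨⟨q, ⟨q1, q2, q3, -⟩, rfl⟩ | ⟨w, -, rfl⟩, -, x⟩ n
          · obtain ⟨u, hu, e⟩ := x.1 v rfl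
            refine absurd ⟨q, ⟨q1, q2, q3, ?_⟩, rfl⟩ n
            rcases Sym2.mem_iff.mp hu with rfl | rfl
            exacts [Or.inl e, Or.inr e]
          · obtain ⟨u, hu, e⟩ := x.1 v rfl
            obtain rfl : u = w := by simpa using hu
            refine ⟨fun u e => absurd e (not_loop h3 u), fun w j => ?_,
              fun _ q _ hq _ e => absurd e.symm (not_loop hq u)⟩
            simp only [Sym2.eq_iff, or_self, and_self] at j
            rw [← j, e]
            exact h4.elim (fun j => ⟨p.1, by simp, j⟩) fun j => ⟨p.2, by simp, j⟩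
  exact main S subset_rfl

theorem multi {c : V → ℕ} {R : V × V → V × V → Prop} (hs : ∀ e f, R e f → R f e)
    (hc : ∀ v, 2 * (univ.filter fun w => c w = c v).card ≤ Fintype.card V)
    (h : ∀ S J, (Wd c S J).Nonempty → NE R (Wd c S J)) :
    ∃ π : Equiv.Perm V, (∀ v, c (π v) ≠ c v) ∧ ∀ v w, Qm c R s(v, π v) s(w, π w) := by
  classical
  obtain ⟨d, d0, d1⟩ := fill (R := Qm c R) (fun e f k => ⟨k.2.1, k.1, fun p q hp hq e1 e2 =>
      hs _ _ (k.2.2 q p hq hp e2 e1)⟩)
    (fun S => {e | (∃ p ∈ Wd c S fun _ => True, s(p.1, p.2) = e) ∨ ∃ v ∈ S, e = s(v, v)})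
    (fun S T hST e he => he.imp
      (fun ⟨p, hp, k⟩ => ⟨p, ⟨hST hp.1, hST hp.2.1, hp.2.2⟩, k⟩)
      fun ⟨v, hv, k⟩ => ⟨v, hST hv, k⟩) (multi_ne h)
  obtain ⟨b, hb, b1⟩ := exists_gen (V := V) (1 / (2 * Fintype.card V + 1)) (by positivity)
  have := degree hb (fun k => by linarith [(b1 k).1]) d d0 (fun S => (d1 S).1)
    (fun S σ h e he k hk => by
      rcases ((d1 S).2 σ h).1 e he with ⟨p, hp, rfl⟩ | ⟨v, hv, rfl⟩
      · rcases Sym2.mem_iff.mp hk with rfl | rfl
        exacts [hp.1, hp.2.1]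
      · rcases Sym2.mem_iff.mp hk with rfl | rfl <;> exact hv) univ
  obtain ⟨σ, -, hσ⟩ := exists_ne_zero_of_sum_ne_zero (this ▸ one_ne_zero)
  obtain ⟨k0, k1⟩ := (d1 _).2 σ (right_ne_zero_of_mul hσ)
  obtain ⟨-, l, l1, l2⟩ : σ.card = (univ : Finset V).card ∧ Cn col (res b univ) σ := by
    by_contra k
    exact left_ne_zero_of_mul hσ (if_neg k)
  have sb : ∀ T : Finset V, ∑ k ∈ T, b k = ∑ e ∈ σ, l e * ((T.filter (· ∈ e)).card : ℝ) :=
    fun T => by
      simp only [← sum_boole, mul_sum]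
      rw [sum_comm]
      exact sum_congr rfl fun k _ => by simpa [res, col] using (congrFun l2 k).symm
  have lo : ∀ T : Finset V, (T.card : ℝ) ≤ ∑ k ∈ T, b k := fun T => by
    simpa using sum_le_sum (s := T) fun k _ => (b1 k).1.le
  have hi : ∀ T : Finset V, ∑ k ∈ T, b k ≤
      T.card + Fintype.card V * (1 / (2 * Fintype.card V + 1)) := fun T => by
    have a1 : ∑ k ∈ T, b k ≤ T.card * (1 + 1 / (2 * Fintype.card V + 1)) := by
      simpa [mul_add] using sum_le_sum (s := T) fun k _ => (b1 k).2.le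
    have a2 : (T.card : ℝ) ≤ Fintype.card V := by exact_mod_cast card_le_univ T
    have a3 : (0 : ℝ) ≤ 1 / (2 * Fintype.card V + 1) := by positivity
    nlinarith
  have cmp : ∀ (T T' : Finset V) (x y : Sym2 V → ℕ),
      (∀ e ∈ σ, (T.filter (· ∈ e)).card + x e ≤ (T'.filter (· ∈ e)).card + y e) →
      ∑ k ∈ T, b k + ∑ e ∈ σ, l e * x e ≤ ∑ k ∈ T', b k + ∑ e ∈ σ, l e * y e := by
    intro T T' x y k
    rw [sb, sb, ← sum_add_distrib, ← sum_add_distrib]
    refine sum_le_sum fun e he => ?_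
    rw [← mul_add, ← mul_add]
    exact mul_le_mul_of_nonneg_left (by exact_mod_cast k e he) (l1 e)
  set dg : Sym2 V → ℕ := fun e => if e.IsDiag then 1 else 0 with hdg
  have lam : ∑ e ∈ σ, l e * dg e ≤ Fintype.card V * (1 / (2 * Fintype.card V + 1)) := by
    by_cases k : ∃ v, s(v, v) ∈ σ
    swap
    · rw [sum_eq_zero fun e he => ?_]
      · positivity
      · induction e using Sym2.ind with
        | _ x y =>
        have : x ≠ y := fun j => k ⟨y, j ▸ he⟩
        simp [hdg, this]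
    obtain ⟨v, hv⟩ := k
    set T := univ.filter fun w => c w = c v with hT
    have a1 := cmp Tᶜ T dg (fun _ => 0) fun e he => by
      obtain ⟨x, hx, e1⟩ := (k1 _ hv e he).1 v rfl
      obtain ⟨y, rfl⟩ := Sym2.mem_iff_exists.mp hx
      have xT : x ∈ T := by simp [hT, e1]
      have b1 : 0 < (T.filter (· ∈ s(x, y))).card := card_pos.mpr ⟨x, by simp [xT]⟩
      have b2 : Tᶜ.filter (· ∈ s(x, y)) ⊆ ({y} : Finset V).erase x := fun u hu => by
        obtain ⟨u1, u2⟩ := mem_filter.mp hu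
        have u3 : u ≠ x := fun j => mem_compl.mp u1 (j ▸ xT)
        simpa [u3] using u2
      have b3 := card_le_card b2
      by_cases j : x = y
      · subst j
        simp only [erase_singleton, card_empty] at b3
        simp only [hdg, Sym2.mk_isDiag_iff, if_true]
        omega
      · have := card_erase_le (s := ({y} : Finset V)) (a := x)
        simp only [card_singleton] at this
        simp only [hdg, Sym2.mk_isDiag_iff, if_neg j]
        omega
    have a2 := lo Tᶜ
    have a3 := hi T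
    have a4 : (T.card : ℝ) ≤ (Tᶜ.card : ℕ) := by
      have : 2 * T.card ≤ Fintype.card V := hc v
      have := card_add_card_compl T
      exact_mod_cast (by omega : T.card ≤ Tᶜ.card)
    simp only [Nat.cast_zero, mul_zero, sum_const_zero] at a1
    linarith
  obtain ⟨f, f1, f2⟩ := (all_card_le_biUnion_card_iff_exists_injective
      (fun v => univ.filter fun w => w ≠ v ∧ s(v, w) ∈ σ)).mp fun A => by
    set N := A.biUnion fun v => univ.filter fun w => w ≠ v ∧ s(v, w) ∈ σ with hN
    have a1 := cmp A N (fun _ => 0) dg fun e he => by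
      by_cases j : e.IsDiag
      · induction e using Sym2.ind with
        | _ x y =>
        obtain rfl : x = y := by simpa using j
        have := card_le_card (t := {x}) (s := A.filter (· ∈ s(x, x))) fun u hu => by
          simpa using (mem_filter.mp hu).2
        simp only [card_singleton] at this
        simp only [hdg, if_pos j]
        omega
      refine (card_le_card_of_injOn (fun k => if h : k ∈ e then Sym2.Mem.other h else k)
        (fun k hk => ?_) fun k hk k' hk' e1 => ?_).trans (Nat.le_add_right _ _)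
      · obtain ⟨m1, m2⟩ := mem_filter.mp hk
        simp only [dif_pos m2, coe_filter, Set.mem_ofPred_eq]
        exact ⟨mem_biUnion.mpr ⟨k, m1, mem_filter.mpr ⟨mem_univ _, Sym2.other_ne j m2,
          by simp [he]⟩⟩, Sym2.other_mem m2⟩
      · obtain ⟨-, m2⟩ := mem_filter.mp hk
        obtain ⟨-, m3⟩ := mem_filter.mp hk'
        simp only [dif_pos m2, dif_pos m3] at e1
        have := (Sym2.other_spec m2).trans (Sym2.other_spec m3).symm
        rw [e1] at this
        exact Sym2.congr_left.mp this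
    have a2 := lo A
    have a3 := hi N
    have a5 : (2 * Fintype.card V : ℝ) * (1 / (2 * Fintype.card V + 1)) < 1 := by
      rw [mul_one_div, div_lt_one (by positivity)]
      linarith
    simp only [Nat.cast_zero, mul_zero, sum_const_zero] at a1
    have : (A.card : ℝ) < N.card + 1 := by linarith
    exact Nat.lt_succ_iff.mp (by exact_mod_cast this)
  have f3 : ∀ v, f v ≠ v ∧ s(v, f v) ∈ σ := fun v => by simpa using f2 v
  refine ⟨Equiv.ofBijective f (Finite.injective_iff_bijective.mp f1), fun v j => ?_, fun v w =>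
    k1 _ (f3 v).2 _ (f3 w).2⟩
  change c (f v) = c v at j
  rcases k0 _ (f3 v).2 with ⟨p, ⟨-, -, hp, -⟩, e⟩ | ⟨w, -, e⟩
  · rcases Sym2.eq_iff.mp e with k | k <;> rw [k.1, k.2] at hp <;> omega
  · simp only [Sym2.eq_iff, or_self] at e
    exact (f3 v).1 (e.2.trans e.1.symm)

end Pool.Agent.Lib.MP_3764f3_co.DC
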