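import Pool.Agent.Lib.MP_3764f3_co.MMain
import Pool.Agent.Lib.MP_3764f3_co.MStar
import Pool.Agent.Lib.MP_3764f3_co.U.Multi

/-! One plane cycle through a given vertex and a perfect matching of the remaining vertices. -/

set_option autoImplicit false

namespace Pool.Agent.Lib.MP_3764f3_co.LT

open Pool.Agent.Lib.MP_3764f3_co.DC

variable {V : Type} {pos : V → ℂ} {G : V → V → ℝ → ℂ} {r : V} {rk : V → ℤ}
  {In : V → V → V → ℂ → Prop}

lemma Dr.rc_rays (h : Dr pos G) {y z : V} (hy : y ≠ r) (hz : z ≠ r) : Rc G (r, y) (r, z) := by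
  by_cases e : y = z
  · exact .inl (by rw [e])
  · exact .inr fun ⟨s, hs, t, ht, k⟩ => hs.1.ne' (h.adj hy hz e (Set.Ioo_subset_Icc_self hs)
      (Set.Ioo_subset_Icc_self ht) k).1

/-- Two-coloured edges together with any set of rays. -/
theorem ray_ne [Fintype V] (h : Dr pos G) (a : Api G r rk In) (A B : Finset V) (rA : r ∉ A)
    (rB : r ∉ B) (nA : A.Nonempty) (nB : B.Nonempty) (lt : ∀ x ∈ A, ∀ y ∈ B, rk x < rk y)
    (Y : Finset V) (hY : ∀ y ∈ Y, y ∈ A ∨ y ∈ B) :
    NE (Rc G) {e | e.1 ∈ A ∧ e.2 ∈ B ∨ e.1 = r ∧ e.2 ∈ Y} := by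
  classical
  have nr : ∀ y, y ∈ A ∨ y ∈ B → y ≠ r := fun y k j => k.elim (j ▸ rA) (j ▸ rB)
  have main : ∀ Y : Finset V, (∀ y ∈ Y, y ∈ A ∨ y ∈ B) → ∀ Z : Finset V, (∀ y ∈ Z, y ∈ A ∨ y ∈ B) →
      NE (Rc G) {e | e ∈ Nb G r A B Z ∅ (fun _ => 0) ∨ e.1 = r ∧ e.2 ∈ Y} := by
    intro Y
    induction Y using Finset.induction_on with
    | empty =>
      intro _ Z hZ
      simpa using all_ne h a (a.star h) (Fintype.card V) A B Z ∅ (fun _ => 0) (by omega)
        ⟨rA, rB, nA, nB, lt, hZ, by simp, by simp, by simp, by simp, fun _ _ => .inl rfl, by simp⟩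
    | insert y Y yY ih =>
      intro hY Z hZ
      rw [Finset.forall_mem_insert] at hY
      have n1 : ∀ e ∈ Nb G r A B Z ∅ (fun _ => 0), e ≠ (r, y) := fun e k j =>
        rA (by simpa [j] using k.1)
      have n2 : ∀ e : V × V, e.2 ∈ Y → e ≠ (r, y) := fun e k j => yY (by simpa [j] using k)
      have n3 : ∀ e : V × V, e ≠ (r, y) → e.1 = r → e.2 ∈ insert y Y → e.2 ∈ Y := fun e k i j =>
        (Finset.mem_insert.mp j).resolve_left fun l => k (Prod.ext i l)
      refine .del (f := (r, y)) (.inr ⟨rfl, by simp⟩) ?_ ?_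
      · convert ih hY.2 Z hZ using 1
        ext e
        exact ⟨fun k => k.1.imp_right fun j => ⟨j.1, n3 e k.2 j.1 j.2⟩, fun k => k.elim
          (fun j => ⟨.inl j, n1 e j⟩) fun j => ⟨.inr ⟨j.1, by simp [j.2]⟩, n2 e j.2⟩⟩
      · convert ih hY.2 (insert y Z) ((Finset.forall_mem_insert _ _ _).mpr ⟨hY.1, hZ⟩) using 1
        ext e
        refine ⟨fun k => k.1.imp (fun j => ⟨j.1, j.2.1, j.2.2.1, j.2.2.2.1, ?_⟩)
          fun j => ⟨j.1, n3 e k.2.1 j.1 j.2⟩, ?_⟩
        · rw [Finset.forall_mem_insert]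
          exact ⟨k.2.2.resolve_left k.2.1.symm, j.2.2.2.2⟩
        rintro (⟨k1, k2, k3, k4, k5⟩ | ⟨k1, k2⟩)
        · rw [Finset.forall_mem_insert] at k5
          exact ⟨.inl ⟨k1, k2, k3, k4, k5.2⟩, n1 e ⟨k1, k2, k3, k4, k5.2⟩, .inr k5.1⟩
        · refine ⟨.inr ⟨k1, by simp [k2]⟩, n2 e k2, ?_⟩
          rw [show e = (r, e.2) from Prod.ext k1 rfl]
          exact h.rc_rays (nr y hY.1) (nr _ (hY.2 _ k2))
  simpa [Nb] using main Y hY ∅ (by simp)

/-- Cycles that avoid `r` are two-coloured and can be replaced by matchings. -/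
lemma tidy [Fintype V] (π : Equiv.Perm V) (r : V) (c : V → ℕ) (h1 : ∀ v, c (π v) ≠ c v)
    (h2 : ∀ v, v ≠ r → c v = 1 ∨ c v = 2) :
    ∃ σ : Equiv.Perm V, (∀ v, ∃ w, s(v, σ v) = s(w, π w)) ∧ ∀ v, σ.SameCycle r v ∨ σ (σ v) = v := by
  classical
  obtain ⟨f, f1, f2⟩ : ∃ f : V → V, (∀ v, π.SameCycle r v ∨ c v = 1 → f v = π v) ∧
      ∀ v, ¬ (π.SameCycle r v ∨ c v = 1) → f v = π⁻¹ v :=
    ⟨fun v => if π.SameCycle r v ∨ c v = 1 then π v else π⁻¹ v, fun _ k => if_pos k,
      fun _ k => if_neg k⟩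
  have nr : ∀ v, ¬ π.SameCycle r v → c v = 1 ∨ c v = 2 := fun v k =>
    h2 v fun j => k (j ▸ Equiv.Perm.SameCycle.refl π _)
  have out : ∀ v, ¬ π.SameCycle r v → ¬ π.SameCycle r (f v) ∧ f (f v) = v := fun v k => by
    by_cases j : c v = 1
    · have n : ¬ π.SameCycle r (π v) := by simpa using k
      have := nr _ n
      have := h1 v
      rw [f1 v (.inr j), f2 _ (by rintro (l | l); exacts [n l, by omega])]
      exact ⟨n, by simp⟩
    · have n : ¬ π.SameCycle r (π⁻¹ v) := by simpa using k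
      have := nr _ n
      have := nr _ k
      have e := h1 (π⁻¹ v)
      rw [show π (π⁻¹ v) = v by simp] at e
      rw [f2 v (by rintro (l | l); exacts [k l, j l]), f1 _ (.inr (by omega))]
      exact ⟨n, by simp⟩
  have inj : Function.Injective f := fun v w e => by
    by_cases k : π.SameCycle r v <;> by_cases j : π.SameCycle r w
    · rw [f1 v (.inl k), f1 w (.inl j)] at e
      exact π.injective e
    · exact absurd (by rw [← e, f1 v (.inl k)]; simpa using k) (out w j).1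
    · exact absurd (by rw [e, f1 w (.inl j)]; simpa using j) (out v k).1
    · rw [← (out v k).2, e, (out w j).2]
  set σ : Equiv.Perm V := Equiv.ofBijective f (Finite.injective_iff_bijective.mp inj) with hσ
  have pw : ∀ n : ℕ, (σ ^ n) r = (π ^ n) r := fun n => by
    induction n with
    | zero => rfl
    | succ n ih =>
      rw [pow_succ', pow_succ', Equiv.Perm.mul_apply, Equiv.Perm.mul_apply, ih]
      exact f1 _ (.inl ⟨n, by simp⟩)
  refine ⟨σ, fun v => ?_, fun v => ?_⟩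
  · by_cases k : π.SameCycle r v ∨ c v = 1
    · exact ⟨v, by rw [← f1 v k]; rfl⟩
    · refine ⟨π⁻¹ v, ?_⟩
      rw [show π (π⁻¹ v) = v by simp, ← f2 v k, Sym2.eq_swap]
      rfl
  · by_cases k : π.SameCycle r v
    · obtain ⟨n, -, e⟩ := k.exists_pow_eq'
      exact .inl ⟨n, by rw [zpow_natCast, pw, e]⟩
    · exact .inr (out v k).2

theorem Dr.cyc [Fintype V] [DecidableEq V] (h : Dr pos G) (hn : 2 ≤ Fintype.card V) (r : V) :
    ∃ σ : Equiv.Perm V, (∀ v, σ v ≠ v) ∧ (∀ v, σ.SameCycle r v ∨ σ (σ v) = v) ∧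
      ∀ v w, s(v, σ v) ≠ s(w, σ w) → ¬ X G v (σ v) w (σ w) := by
  classical
  obtain ⟨rk, In, a⟩ := h.api r
  obtain ⟨B, b1, b2, b3⟩ := top_set rk (Finset.univ.erase r)
    (fun x hx y hy => a.inj x y (Finset.ne_of_mem_erase hx) (Finset.ne_of_mem_erase hy))
    (Fintype.card V / 2) (by rw [Finset.card_erase_of_mem (Finset.mem_univ r), Finset.card_univ]; omega)
  have rB : r ∉ B := fun k => Finset.ne_of_mem_erase (b1 k) rfl
  obtain ⟨c, c0, c1, c2⟩ : ∃ c : V → ℕ, (∀ v, c v = 0 ↔ v = r) ∧ (∀ v, c v = 2 ↔ v ∈ B) ∧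
      ∀ v, c v ≤ 2 := by
    refine ⟨fun v => if v = r then 0 else if v ∈ B then 2 else 1, fun v => ?_, fun v => ?_,
      fun v => ?_⟩ <;> dsimp only <;> split_ifs <;> simp_all
  obtain ⟨π, p1, p2⟩ := multi (c := c) (R := Rc G)
    (fun e f k => k.elim (fun k => Or.inl k.symm) fun k => Or.inr fun x => k x.symm) (fun v => by
      by_cases k : c v = 0
      · have := Finset.card_le_card (t := {r}) (s := Finset.univ.filter fun w => c w = c v)
          fun u hu => by simpa [k, c0] using hu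
        rw [Finset.card_singleton] at this
        omega
      by_cases j : c v = 2
      · have := Finset.card_le_card (t := B) (s := Finset.univ.filter fun w => c w = c v)
          fun u hu => by simpa [j, c1] using hu
        omega
      · have := Finset.card_le_card (t := (insert r B)ᶜ)
          (s := Finset.univ.filter fun w => c w = c v) fun u hu => by
            have e := (Finset.mem_filter.mp hu).2
            simp only [Finset.mem_compl, Finset.mem_insert, ← c0, ← c1]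
            omega
        rw [Finset.card_compl, Finset.card_insert_of_notMem rB] at this
        omega) fun S J ⟨p, hp⟩ => by
    by_cases k : ∃ q ∈ Wd c S J, q.1 ≠ r
    swap
    · push Not at k
      refine .cone hp fun q hq => ?_
      rw [show p = (r, p.2) from Prod.ext (k p hp) rfl, show q = (r, q.2) from Prod.ext (k q hq) rfl]
      exact h.rc_rays (fun j => by have := (c0 _).mpr j; have := hp.2.2.1; omega)
        fun j => by have := (c0 _).mpr j; have := hq.2.2.1; omega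
    obtain ⟨q, ⟨q1, q2, q3, q4⟩, q5⟩ := k
    have e1 : c q.1 = 1 := by have := (c0 _).not.mpr q5; have := c2 q.2; omega
    have e2 : c q.2 = 2 := by have := c2 q.2; omega
    have e0 : c r = 0 := (c0 r).mpr rfl
    rw [e1, e2] at q4
    convert ray_ne h a (S.filter (c · = 1)) (S.filter (c · = 2)) (by simp [e0]) (by simp [e0])
      ⟨q.1, by simp [q1, e1]⟩ ⟨q.2, by simp [q2, e2]⟩
      (fun x hx y hy => by
        have x1 := (Finset.mem_filter.mp hx).2
        exact b3 x (by simp [← c0, x1]) (by simp [← c1, x1]) y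
          ((c1 y).mp (Finset.mem_filter.mp hy).2))
      (S.filter fun y => r ∈ S ∧ 0 < c y ∧ (J 0 ∨ J (c y))) (fun y hy => by
        obtain ⟨y1, -, y2, -⟩ := Finset.mem_filter.mp hy
        have := c2 y
        simp only [Finset.mem_filter, y1, true_and]
        omega) using 1
    ext ⟨x, y⟩
    simp only [Wd, Set.mem_ofPred_eq, Finset.mem_filter]
    constructor
    · rintro ⟨k1, k2, k3, k4⟩
      by_cases j : x = r
      · subst j
        rw [e0] at k3 k4
        exact .inr ⟨rfl, k2, k1, k3, k4⟩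
      · have := (c0 _).not.mpr j
        have := c2 y
        exact .inl ⟨⟨k1, by omega⟩, k2, by omega⟩
    · rintro (⟨⟨k1, k2⟩, k3, k4⟩ | ⟨rfl, k1, k2, k3, k4⟩)
      · exact ⟨k1, k3, by omega, by rwa [k2, k4]⟩
      · exact ⟨k2, k1, by omega, by rwa [e0]⟩
  obtain ⟨σ, s1, s2⟩ := tidy π r c p1 fun v k => by
    have := (c0 _).not.mpr k
    have := c2 v
    omega
  have ori : ∀ v, ∃ (w : V) (p : V × V), c p.1 < c p.2 ∧ s(w, π w) = s(p.1, p.2) ∧
      s(v, σ v) = s(p.1, p.2) := fun v => by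
    obtain ⟨w, e⟩ := s1 v
    rcases Nat.lt_or_gt_of_ne (p1 w) with l | l
    exacts [⟨w, (π w, w), l, Sym2.eq_swap, e.trans Sym2.eq_swap⟩, ⟨w, (w, π w), l, rfl, e⟩]
  have nf : ∀ v, σ v ≠ v := fun v j => by
    obtain ⟨w, p, l, -, e⟩ := ori v
    exact not_loop l v (by rw [← e, j])
  refine ⟨σ, nf, s2, fun v w k x => ?_⟩
  obtain ⟨v', p, l, e1, e2⟩ := ori v
  obtain ⟨w', q, m, e3, e4⟩ := ori w
  refine ((p2 v' w').2.2 p q l m e1 e3).elim (fun j => k (by rw [e2, e4, j])) fun j => j ?_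
  have x1 : X G v (σ v) q.1 q.2 := by
    rcases Sym2.eq_iff.mp e4 with i | i
    · rwa [← i.1, ← i.2]
    · rw [← i.1, ← i.2]
      exact x.rev h (nf w).symm
  rcases Sym2.eq_iff.mp e2 with i | i
  · rwa [← i.1, ← i.2]
  · rw [← i.1, ← i.2]
    exact (x1.symm.rev h (nf v).symm).symm

end Pool.Agent.Lib.MP_3764f3_co.LT
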