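import Pool.Agent.Lib.MP_3764f3_co.U.Multi

/-! A weighted degree argument for complete bipartite graphs. -/

set_option autoImplicit false

namespace Pool.Agent.Lib.MP_3764f3_co.DC

open Finset

variable {V : Type} [Fintype V] [DecidableEq V]

lemma exists_gen_near (w : V → ℝ) (δ : ℝ) (hδ : 0 < δ) :
    ∃ b : V → ℝ, Gen b ∧ ∀ k, w k < b k ∧ b k < w k + δ := by
  have hd : Dense (⋂ σ : {σ : Finset (Sym2 V) // σ.card < Fintype.card V},
      ((Submodule.span ℝ (col '' (σ.1 : Set (Sym2 V))) : Submodule ℝ (V → ℝ)) : Set (V → ℝ))ᶜ) := by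
    refine dense_iInter_of_isOpen (fun σ => (Submodule.closed_of_finiteDimensional _).isOpen_compl)
      fun σ => ?_
    rw [← interior_eq_empty_iff_dense_compl]
    by_contra hne
    have h1 := Submodule.eq_top_of_nonempty_interior' _ (Set.nonempty_iff_ne_empty.mpr hne)
    have h2 := finrank_span_finset_le_card (R := ℝ) (σ.1.image col)
    have h3 := card_image_le (s := σ.1) (f := col)
    have h4 := σ.2
    rw [Set.finrank, coe_image, h1, finrank_top, Module.finrank_fintype_fun_eq_card] at h2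
    omega
  obtain ⟨b, h1, h2⟩ := hd.inter_open_nonempty (Set.pi Set.univ fun k => Set.Ioo (w k) (w k + δ))
    (isOpen_set_pi Set.finite_univ fun _ _ => isOpen_Ioo)
    ⟨fun k => w k + δ / 2, fun _ _ => ⟨by linarith, by linarith⟩⟩
  exact ⟨b, fun σ hσ => Set.mem_iInter.mp h2 ⟨σ, hσ⟩, fun k => h1 k trivial⟩

/-- The two-coloured edges of a basis form a forest. -/
lemma sparse {b : V → ℝ} (hb : Gen b) {σ : Finset (Sym2 V)} (hσ : σ.card = Fintype.card V)
    {l : Sym2 V → ℝ} (hl : ∑ e ∈ σ, l e • col e = b) (A S : Finset V) (hS : S.Nonempty)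
    (E : Finset (Sym2 V)) (hE : E ⊆ σ)
    (h : ∀ e ∈ E, ∃ x ∈ S, ∃ y ∈ S, x ∈ A ∧ y ∉ A ∧ e = s(x, y)) : E.card < S.card := by
  rcases E.eq_empty_or_nonempty with rfl | ⟨e0, he0⟩
  · exact card_pos.mpr hS
  obtain ⟨x0, x1, y0, y1, x2, y2, -⟩ := h e0 he0
  by_contra k
  refine hb ((σ \ E) ∪ (((S ∩ A).image fun x => s(x, y0)) ∪
    ((S \ A).erase y0).image fun y => s(x0, y))) ?_ ?_
  · have a1 := card_union_le (σ \ E) (((S ∩ A).image fun x => s(x, y0)) ∪
      ((S \ A).erase y0).image fun y => s(x0, y))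
    have a2 := card_union_le ((S ∩ A).image fun x => s(x, y0))
      (((S \ A).erase y0).image fun y => s(x0, y))
    have a3 := card_image_le (s := S ∩ A) (f := fun x => s(x, y0))
    have a4 := card_image_le (s := (S \ A).erase y0) (f := fun y => s(x0, y))
    have a5 := card_erase_add_one (mem_sdiff.mpr ⟨y1, y2⟩)
    have a6 := card_inter_add_card_sdiff S A
    have a7 := card_sdiff_add_card_eq_card hE
    omega
  rw [← hl]
  refine Submodule.sum_mem _ fun e he => Submodule.smul_mem _ _ ?_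
  by_cases j : e ∈ E
  swap
  · exact Submodule.subset_span ⟨e, by simp [he, j], rfl⟩
  obtain ⟨x, hx, y, hy, xA, yA, rfl⟩ := h e j
  have m1 : ∀ x ∈ S, x ∈ A → s(x, y0) ∈ (σ \ E) ∪ (((S ∩ A).image fun x => s(x, y0)) ∪
      ((S \ A).erase y0).image fun y => s(x0, y)) := fun x a b =>
    mem_union_right _ (mem_union_left _ (mem_image_of_mem _ (mem_inter.mpr ⟨a, b⟩)))
  by_cases i : y = y0
  · exact Submodule.subset_span ⟨_, m1 x hx xA, by rw [i]⟩
  have e : col s(x, y) = col s(x, y0) + col s(x0, y) - col s(x0, y0) := funext fun u => by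
    by_cases uA : u ∈ A
    · have n1 : u ≠ y := fun e => yA (e ▸ uA)
      have n2 : u ≠ y0 := fun e => y2 (e ▸ uA)
      simp [col, n1, n2]
    · have n1 : u ≠ x := fun e => uA (e ▸ xA)
      have n2 : u ≠ x0 := fun e => uA (e ▸ x2)
      simp [col, n1, n2]
  rw [e]
  exact Submodule.sub_mem _ (Submodule.add_mem _ (Submodule.subset_span ⟨_, m1 x hx xA, rfl⟩)
    (Submodule.subset_span ⟨_, mem_union_right _ (mem_union_right _ (mem_image_of_mem _
      (mem_erase.mpr ⟨i, mem_sdiff.mpr ⟨hy, yA⟩⟩))), rfl⟩))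
    (Submodule.subset_span ⟨_, m1 x0 x1 x2, rfl⟩)

theorem flow {c : V → ℕ} {R : V × V → V × V → Prop} (hs : ∀ e f, R e f → R f e)
    (h : ∀ S J, (Wd c S J).Nonempty → NE R (Wd c S J)) (A : Finset V) (hA : ∀ v ∈ A, c v = 1)
    (hB : ∀ v, v ∉ A → c v = 0) (w : V → ℕ) (w0 : ∀ v, 0 < w v)
    (hw : ∑ v ∈ A, w v ≤ ∑ v ∈ Aᶜ, w v) :
    ∃ σ : Finset (Sym2 V), (∀ e ∈ σ, ∀ f ∈ σ, Qm c R e f) ∧
      (∀ T ⊆ A, ∑ v ∈ T, w v ≤ ∑ v ∈ Aᶜ.filter fun y => ∃ x ∈ T, s(x, y) ∈ σ, w v) ∧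
      ∀ S : Finset V, S.Nonempty → ∀ E ⊆ σ,
        (∀ e ∈ E, ∃ x ∈ S, ∃ y ∈ S, x ∈ A ∧ y ∉ A ∧ e = s(x, y)) → E.card < S.card := by
  classical
  obtain ⟨d, d0, d1⟩ := fill (R := Qm c R) (fun e f k => ⟨k.2.1, k.1, fun p q hp hq e1 e2 =>
      hs _ _ (k.2.2 q p hq hp e2 e1)⟩)
    (fun S => {e | (∃ p ∈ Wd c S fun _ => True, s(p.1, p.2) = e) ∨ ∃ v ∈ S, e = s(v, v)})
    (fun S T hST e he => he.imp
      (fun ⟨p, hp, k⟩ => ⟨p, ⟨hST hp.1, hST hp.2.1, hp.2.2⟩, k⟩)
      fun ⟨v, hv, k⟩ => ⟨v, hST hv, k⟩) (multi_ne h)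
  obtain ⟨b, hb, b1⟩ := exists_gen_near (fun v => (w v : ℝ)) (1 / (2 * Fintype.card V + 1))
    (by positivity)
  have := degree hb (fun k => lt_trans (by exact_mod_cast w0 k) (b1 k).1) d d0 (fun S => (d1 S).1)
    (fun S σ h e he k hk => by
      rcases ((d1 S).2 σ h).1 e he with ⟨p, hp, rfl⟩ | ⟨v, hv, rfl⟩
      · rcases Sym2.mem_iff.mp hk with rfl | rfl
        exacts [hp.1, hp.2.1]
      · rcases Sym2.mem_iff.mp hk with rfl | rfl <;> exact hv) univ
  obtain ⟨σ, -, hσ⟩ := exists_ne_zero_of_sum_ne_zero (this ▸ one_ne_zero)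
  obtain ⟨k0, k1⟩ := (d1 _).2 σ (right_ne_zero_of_mul hσ)
  obtain ⟨l0, l, l1, l2⟩ : σ.card = (univ : Finset V).card ∧ Cn col (res b univ) σ := by
    by_contra k
    exact left_ne_zero_of_mul hσ (if_neg k)
  refine ⟨σ, k1, fun T hT => ?_, fun S hS E hE => sparse hb l0
    (l2.trans (funext fun k => by simp [res])) A S hS E hE⟩
  have sb : ∀ T : Finset V, ∑ k ∈ T, b k = ∑ e ∈ σ, l e * ((T.filter (· ∈ e)).card : ℝ) :=
    fun T => by
      simp only [← sum_boole, mul_sum]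
      rw [sum_comm]
      exact sum_congr rfl fun k _ => by simpa [res, col] using (congrFun l2 k).symm
  have lo : ∀ T : Finset V, ((∑ k ∈ T, w k : ℕ) : ℝ) ≤ ∑ k ∈ T, b k := fun T => by
    rw [Nat.cast_sum]
    exact sum_le_sum fun k _ => (b1 k).1.le
  have hi : ∀ T : Finset V, ∑ k ∈ T, b k ≤
      ((∑ k ∈ T, w k : ℕ) : ℝ) + Fintype.card V * (1 / (2 * Fintype.card V + 1)) := fun T => by
    have a1 := sum_le_sum (s := T) fun k _ => (b1 k).2.le
    rw [sum_add_distrib, sum_const, nsmul_eq_mul, ← Nat.cast_sum] at a1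
    have a2 : (T.card : ℝ) ≤ Fintype.card V := by exact_mod_cast card_le_univ T
    have a3 : (0 : ℝ) ≤ 1 / (2 * Fintype.card V + 1) := by positivity
    nlinarith
  have cmp : ∀ (T T' : Finset V) (x y : Sym2 V → ℕ),
      (∀ e ∈ σ, (T.filter (· ∈ e)).card + x e ≤ (T'.filter (· ∈ e)).card + y e) →
      ∑ k ∈ T, b k + ∑ e ∈ σ, l e * x e ≤ ∑ k ∈ T', b k + ∑ e ∈ σ, l e * y e := by
    intro T T' x y k
    rw [sb, sb, ← sum_add_distrib, ← sum_add_distrib]
    refine sum_le_sum fun e he => ?_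
    rw [← mul_add, ← mul_add]
    exact mul_le_mul_of_nonneg_left (by exact_mod_cast k e he) (l1 e)
  have sh : ∀ e ∈ σ, (∃ x ∈ A, ∃ y, y ∉ A ∧ e = s(x, y)) ∨ ∃ v, e = s(v, v) := fun e he => by
    rcases k0 e he with ⟨p, ⟨-, -, hp, -⟩, rfl⟩ | ⟨v, -, e⟩
    · have n : p.1 ∉ A := fun j => by
        have := hA _ j
        by_cases i : p.2 ∈ A
        exacts [by have := hA _ i; omega, by have := hB _ i; omega]
      exact .inl ⟨p.2, by_contra fun i => by have := hB _ i; omega, p.1, n, Sym2.eq_swap⟩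
    · exact .inr ⟨v, e⟩
  have one : ∀ (U : Finset V) (e : Sym2 V) (x : V), (∀ u ∈ U, u ∈ e → u = x) →
      (U.filter (· ∈ e)).card ≤ 1 := fun U e x k => card_le_one.mpr fun u hu v hv =>
    (k u (mem_filter.mp hu).1 (mem_filter.mp hu).2).trans
      (k v (mem_filter.mp hv).1 (mem_filter.mp hv).2).symm
  have nil : ∀ (U : Finset V) (e : Sym2 V), (∀ u ∈ U, u ∉ e) → (U.filter (· ∈ e)).card = 0 :=
    fun U e k => card_eq_zero.mpr (filter_eq_empty_iff.mpr k)
  have pos : ∀ (U : Finset V) (e : Sym2 V), ∀ x ∈ U, x ∈ e → 0 < (U.filter (· ∈ e)).card :=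
    fun U e x a b => card_pos.mpr ⟨x, mem_filter.mpr ⟨a, b⟩⟩
  set dg : Sym2 V → ℕ := fun e => if ∃ v ∈ A, e = s(v, v) then 1 else 0 with hdg
  have lam : ∑ e ∈ σ, l e * dg e ≤ Fintype.card V * (1 / (2 * Fintype.card V + 1)) := by
    by_cases k : ∃ v ∈ A, s(v, v) ∈ σ
    swap
    · rw [sum_eq_zero fun e he => ?_]
      · positivity
      · simp only [hdg]
        rw [if_neg fun ⟨v, a, j⟩ => k ⟨v, a, j ▸ he⟩]
        simp
    obtain ⟨v, vA, hv⟩ := k
    have a1 := cmp Aᶜ A dg (fun _ => 0) fun e he => by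
      simp only [hdg]
      rcases sh e he with ⟨x, hx, y, hy, rfl⟩ | ⟨u, rfl⟩
      · have := one Aᶜ s(x, y) y fun u a b =>
          (Sym2.mem_iff.mp b).resolve_left fun j => mem_compl.mp a (j ▸ hx)
        have := pos A s(x, y) x hx (by simp)
        rw [if_neg fun ⟨v, a, j⟩ => hy (by simp_all)]
        omega
      · obtain ⟨x, hx, e1⟩ := (k1 _ hv _ he).1 v rfl
        obtain rfl : x = u := by simpa using hx
        have xA : x ∈ A := by_contra fun j => by have := hB _ j; have := hA _ vA; omega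
        have := nil Aᶜ s(x, x) fun u a b => mem_compl.mp a (by simp_all)
        have := pos A s(x, x) x xA (by simp)
        split_ifs <;> omega
    have a2 := lo Aᶜ
    have a3 := hi A
    have a4 : ((∑ k ∈ A, w k : ℕ) : ℝ) ≤ (∑ k ∈ Aᶜ, w k : ℕ) := by exact_mod_cast hw
    simp only [Nat.cast_zero, mul_zero, sum_const_zero] at a1
    linarith
  set N := Aᶜ.filter fun y => ∃ x ∈ T, s(x, y) ∈ σ with hN
  have a1 := cmp T N (fun _ => 0) dg fun e he => by
    rcases sh e he with ⟨x, hx, y, hy, rfl⟩ | ⟨u, rfl⟩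
    · by_cases j : x ∈ T
      · have := one T s(x, y) x fun u a b =>
          (Sym2.mem_iff.mp b).resolve_right fun j => hy (j ▸ hT a)
        have := pos N s(x, y) y (mem_filter.mpr ⟨mem_compl.mpr hy, x, j, he⟩) (by simp)
        omega
      · have := nil T s(x, y) fun u a b =>
          (Sym2.mem_iff.mp b).elim (fun i => j (i ▸ a)) fun i => hy (i ▸ hT a)
        omega
    · by_cases j : u ∈ T
      · have := one T s(u, u) u fun v _ b => by simpa using b
        simp only [hdg]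
        rw [if_pos ⟨u, hT j, rfl⟩]
        omega
      · have := nil T s(u, u) fun v a b => j (by simp_all)
        omega
  have a2 := lo T
  have a3 := hi N
  have a5 : (2 * Fintype.card V : ℝ) * (1 / (2 * Fintype.card V + 1)) < 1 := by
    rw [mul_one_div, div_lt_one (by positivity)]
    linarith
  simp only [Nat.cast_zero, mul_zero, sum_const_zero] at a1
  have : ((∑ k ∈ T, w k : ℕ) : ℝ) < (∑ k ∈ N, w k : ℕ) + 1 := by linarith
  exact Nat.lt_succ_iff.mp (by exact_mod_cast this)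

end Pool.Agent.Lib.MP_3764f3_co.DC
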