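import Pool.Agent.Lib.MP_3764f3_co.DMain

set_option autoImplicit false

namespace Pool.Agent.Lib.MP_3764f3_co.U.OldFactor

open Pool.Agent.Lib.MP_3764f3_co

/-- Every simple drawing of K_n with n at least 2 has a plane spanning subgraph all of whose
components are single edges or cycles. -/
theorem result :
  ∀ (n : ℕ), 2 ≤ n →
  ∀ (pos : Fin n → ℝ × ℝ) (c : Fin n → Fin n → ℝ → ℝ × ℝ),
    Function.Injective pos →
    (∀ i j : Fin n, i < j →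
      ContinuousOn (c i j) (Set.Icc 0 1) ∧ Set.InjOn (c i j) (Set.Icc 0 1) ∧
      c i j 0 = pos i ∧ c i j 1 = pos j ∧
      ∀ k : Fin n, ∀ s ∈ Set.Ioo (0:ℝ) 1, c i j s ≠ pos k) →
    (∀ i j k l : Fin n, i < j → k < l → (i, j) ≠ (k, l) →
      ∀ s ∈ Set.Ioo (0:ℝ) 1, ∀ t ∈ Set.Ioo (0:ℝ) 1, c i j s = c k l t →
        (i ≠ k ∧ i ≠ l ∧ j ≠ k ∧ j ≠ l) ∧
        (∀ s' ∈ Set.Ioo (0:ℝ) 1, ∀ t' ∈ Set.Ioo (0:ℝ) 1,
          c i j s' = c k l t' → s' = s ∧ t' = t) ∧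
        ∃ ε : ℝ, 0 < ε ∧ ∃ h : (ℝ × ℝ) ≃ₜ (ℝ × ℝ),
          h (c i j s) = 0 ∧
          (∀ u ∈ Set.Ioo (s - ε) (s + ε), (h (c i j u)).2 = 0) ∧
          (∀ u ∈ Set.Ioo (t - ε) (t + ε), (h (c k l u)).1 = 0)) →
    ∃ σ : Equiv.Perm (Fin n), σ.support = Finset.univ ∧
      ∀ v w : Fin n, (min v (σ v), max v (σ v)) ≠ (min w (σ w), max w (σ w)) →
        ∀ s ∈ Set.Ioo (0:ℝ) 1, ∀ t ∈ Set.Ioo (0:ℝ) 1,
          c (min v (σ v)) (max v (σ v)) s ≠ c (min w (σ w)) (max w (σ w)) t := by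
  intro n hn pos c h0 h1 h2
  obtain ⟨p, G, hG, e⟩ := LT.exists_dr pos c h0 h1 h2
  have : Nontrivial (Fin n) := Fin.nontrivial_iff_two_le.mpr hn
  obtain ⟨π, k1, k2⟩ := hG.factor
  refine ⟨π, Finset.eq_univ_of_forall fun v => Equiv.Perm.mem_support.mpr (k1 v), fun v w k =>
    e _ _ _ _ (k1 v).symm (k1 w).symm (k2 v w fun k3 => k ?_)⟩
  rcases Sym2.eq_iff.mp k3 with l | l
  · rw [l.2, l.1]
  · rw [l.2, l.1, min_comm, max_comm]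

end Pool.Agent.Lib.MP_3764f3_co.U.OldFactor
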