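import Pool.Agent.Lib.MP_3764f3_co.MMain
import Pool.Agent.Lib.MP_3764f3_co.MStar

set_option autoImplicit false

namespace Pool.Agent.Lib.MP_3764f3_co.U.OldMatching

open Pool.Agent.Lib.MP_3764f3_co

/-- Every simple drawing of K_n has n / 2 (rounded down) pairwise disjoint edges. -/
theorem result :
  ∀ (n : ℕ) (pos : Fin n → ℝ × ℝ) (c : Fin n → Fin n → ℝ → ℝ × ℝ),
    Function.Injective pos →
    (∀ i j : Fin n, i < j →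
      ContinuousOn (c i j) (Set.Icc 0 1) ∧ Set.InjOn (c i j) (Set.Icc 0 1) ∧
      c i j 0 = pos i ∧ c i j 1 = pos j ∧
      ∀ k : Fin n, ∀ s ∈ Set.Ioo (0:ℝ) 1, c i j s ≠ pos k) →
    (∀ i j k l : Fin n, i < j → k < l → (i, j) ≠ (k, l) →
      ∀ s ∈ Set.Ioo (0:ℝ) 1, ∀ t ∈ Set.Ioo (0:ℝ) 1, c i j s = c k l t →
        (i ≠ k ∧ i ≠ l ∧ j ≠ k ∧ j ≠ l) ∧
        (∀ s' ∈ Set.Ioo (0:ℝ) 1, ∀ t' ∈ Set.Ioo (0:ℝ) 1,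
          c i j s' = c k l t' → s' = s ∧ t' = t) ∧
        ∃ ε : ℝ, 0 < ε ∧ ∃ h : (ℝ × ℝ) ≃ₜ (ℝ × ℝ),
          h (c i j s) = 0 ∧
          (∀ u ∈ Set.Ioo (s - ε) (s + ε), (h (c i j u)).2 = 0) ∧
          (∀ u ∈ Set.Ioo (t - ε) (t + ε), (h (c k l u)).1 = 0)) →
    ∃ M : Finset (Fin n × Fin n), M.card = n / 2 ∧ (∀ e ∈ M, e.1 < e.2) ∧
      ∀ e ∈ M, ∀ f ∈ M, e ≠ f → ∀ s ∈ Set.Icc (0:ℝ) 1, ∀ t ∈ Set.Icc (0:ℝ) 1,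
        c e.1 e.2 s ≠ c f.1 f.2 t := by
  intro n pos c h0 h1 h2
  obtain ⟨p, G, hG, e⟩ := LT.exists_dr pos c h0 h1 h2
  exact LT.perfect n pos c h0 h1 p G hG e fun _ _ _ a => a.star hG

end Pool.Agent.Lib.MP_3764f3_co.U.OldMatching
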