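import Pool.Agent.Results.MP_3764f3_co.CycleMatching
import Pool.Agent.Lib.MP_3764f3_co.U.OldMatching
import Pool.Agent.Lib.MP_3764f3_co.U.OldFactor

/-! The two retired statements follow from the new one. -/

namespace Pool.Agent.Lib.MP_3764f3_co.U

theorem oldMatching : type_of% @OldMatching.result :=
  Pool.Agent.Results.MP_3764f3_co.CycleMatching.matching

theorem oldFactor : type_of% @OldFactor.result :=
  Pool.Agent.Results.MP_3764f3_co.CycleMatching.factor

end Pool.Agent.Lib.MP_3764f3_co.U
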