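import Mathlib

/-! Alternate edges of a permutation with one long cycle. -/

set_option autoImplicit false

namespace Pool.Agent.Lib.MP_3764f3_co.LT

open Finset

lemma indep {n : ℕ} (σ : Equiv.Perm (Fin n)) (r : Fin n) (h1 : ∀ v, σ v ≠ v)
    (h2 : ∀ v, σ.SameCycle r v ∨ σ (σ v) = v) :
    ∃ A : Finset (Fin n), A.card = n / 2 ∧ ∀ v ∈ A, ∀ w ∈ A, v ≠ σ w := by
  classical
  set m := Function.minimalPeriod σ r with hm
  have m0 : 0 < m := Function.minimalPeriod_pos_of_mem_periodicPts
    (σ.injective.mem_periodicPts r)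
  have ij : ∀ i < m, ∀ j < m, σ^[i] r = σ^[j] r → i = j := fun i hi j hj e =>
    Function.iterate_injOn_Iio_minimalPeriod hi hj e
  set C := (range m).image fun i => σ^[i] r with hC
  have mC : ∀ v, v ∈ C ↔ σ.SameCycle r v := fun v => by
    simp only [hC, mem_image, mem_range]
    refine ⟨fun ⟨i, _, e⟩ => ⟨i, by rwa [zpow_natCast, ← Equiv.Perm.iterate_eq_pow]⟩, fun k => ?_⟩
    obtain ⟨i, -, e⟩ := k.exists_pow_eq'
    exact ⟨i % m, Nat.mod_lt _ m0, by
      rwa [hm, Function.iterate_mod_minimalPeriod_eq, Equiv.Perm.iterate_eq_pow]⟩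
  have cC : C.card = m := by
    rw [hC, card_image_of_injOn fun i hi j hj => ij i (by simpa using hi) j (by simpa using hj),
      card_range]
  set A1 := (range (m / 2)).image fun i => σ^[2 * i] r with hA1
  set A2 := Cᶜ.filter fun v => v < σ v with hA2
  have c1 : A1.card = m / 2 := by
    rw [hA1, card_image_of_injOn fun i hi j hj e => by
      have hi := mem_range.mp (mem_coe.mp hi)
      have hj := mem_range.mp (mem_coe.mp hj)
      have := ij _ (by omega) _ (by omega) e
      omega, card_range]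
  have out : ∀ v, v ∉ C → σ v ∉ C ∧ σ (σ v) = v := fun v k => by
    rw [mC] at k ⊢
    exact ⟨by simpa using k, (h2 v).resolve_left k⟩
  have c2 : A2.card = (Cᶜ.filter fun v => ¬ v < σ v).card := by
    refine card_bij (fun v _ => σ v) (fun v hv => ?_) (fun v _ w _ e => σ.injective e) fun w hw => ?_
    · obtain ⟨a, b⟩ := mem_filter.mp hv
      obtain ⟨x, y⟩ := out v (mem_compl.mp a)
      exact mem_filter.mpr ⟨mem_compl.mpr x, by rw [y]; exact b.le.not_gt⟩
    · obtain ⟨a, b⟩ := mem_filter.mp hw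
      obtain ⟨x, y⟩ := out w (mem_compl.mp a)
      exact ⟨σ w, mem_filter.mpr ⟨mem_compl.mpr x, by
        rw [y]; exact lt_of_le_of_ne (not_lt.mp b) (h1 w)⟩, y⟩
  have c3 := card_filter_add_card_filter_not (s := Cᶜ) fun v => v < σ v
  have c4 := card_add_card_compl C
  have s1 : ∀ v ∈ A1, v ∈ C := fun v hv => by
    obtain ⟨i, hi, rfl⟩ := mem_image.mp hv
    exact mem_image.mpr ⟨2 * i, mem_range.mpr (by have := mem_range.mp hi; omega), rfl⟩
  have s2 : ∀ v ∈ A2, v ∉ C := fun v hv => mem_compl.mp (mem_filter.mp hv).1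
  refine ⟨A1 ∪ A2, ?_, fun v hv w hw e => ?_⟩
  · rw [card_union_of_disjoint (disjoint_left.mpr fun v a b => s2 v b (s1 v a))]
    rw [Fintype.card_fin] at c4
    change A2.card + _ = _ at c3
    omega
  · rcases mem_union.mp hv with a | a <;> rcases mem_union.mp hw with b | b
    · obtain ⟨i, hi, rfl⟩ := mem_image.mp a
      obtain ⟨j, hj, rfl⟩ := mem_image.mp b
      have hi := mem_range.mp hi
      have hj := mem_range.mp hj
      have := ij (2 * i) (by omega) (2 * j + 1) (by omega) (by rw [Function.iterate_succ_apply', e])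
      omega
    · exact (out w (s2 w b)).1 (e ▸ s1 v a)
    · refine s2 v a ((mC v).mpr ?_)
      simpa [e] using (mC w).mp (s1 w b)
    · have x := (mem_filter.mp a).2
      have y := (mem_filter.mp b).2
      rw [e, (out w (s2 w b)).2] at x
      exact x.not_gt y

end Pool.Agent.Lib.MP_3764f3_co.LT
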