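import Mathlib

/-! A forest of maximum degree two lies on a Hamiltonian cycle. -/

set_option autoImplicit false

namespace Pool.Agent.Lib.MP_3764f3_co.LT

open Finset Equiv

variable {V : Type} [Fintype V] [DecidableEq V]

omit [DecidableEq V] in
lemma same_of {σ τ : Perm V} {S : Finset V} (h0 : ∀ x ∈ S, σ x ∈ S)
    (h : ∀ x ∈ S, τ.SameCycle x (σ x)) {x y : V} (hx : x ∈ S) (k : σ.SameCycle x y) :
    τ.SameCycle x y := by
  classical
  obtain ⟨n, -, rfl⟩ := k.exists_pow_eq'
  have : ∀ n : ℕ, (σ ^ n) x ∈ S ∧ τ.SameCycle x ((σ ^ n) x) := fun n => by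
    induction n with
    | zero => exact ⟨hx, Perm.SameCycle.refl _ _⟩
    | succ n ih =>
      rw [pow_succ', Perm.mul_apply]
      exact ⟨h0 _ ih.1, ih.2.trans (h _ ih.1)⟩
  exact (this n).2

/-- Cyclic orders along a linear forest. -/
lemma order (r : V → V → Prop) (hs : ∀ x y, r x y → r y x) (hi : ∀ x, ¬ r x x)
    (h2 : ∀ w x y z, r w x → r w y → r w z → x = y ∨ x = z ∨ y = z)
    (h1 : ∀ S : Finset V, S.Nonempty → ∃ v ∈ S, ∀ x ∈ S, ∀ y ∈ S, r v x → r v y → x = y) (n : ℕ) :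
    ∀ S : Finset V, S.card = n → ∃ σ : Perm V, (∀ v, v ∉ S → σ v = v) ∧
      (∀ x ∈ S, ∀ y ∈ S, σ.SameCycle x y) ∧ ∀ x ∈ S, ∀ y ∈ S, r x y → σ x = y ∨ σ y = x := by
  induction n with
  | zero =>
    intro S hS
    obtain rfl := card_eq_zero.mp hS
    exact ⟨1, by simp, by simp, by simp⟩
  | succ n ih =>
    intro S hS
    obtain ⟨v, hv, k⟩ := h1 S (card_pos.mp (by omega))
    obtain ⟨σ, s1, s2, s3⟩ := ih (S.erase v) (by rw [card_erase_of_mem hv]; omega)
    rcases (S.erase v).eq_empty_or_nonempty with e | ne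
    · have : ∀ x ∈ S, x = v := fun x hx => by_contra fun j =>
        notMem_empty x (e ▸ mem_erase.mpr ⟨j, hx⟩)
      refine ⟨1, by simp, fun x hx y hy => ?_, fun x hx y hy j => ?_⟩
      · rw [this x hx, this y hy]
      · rw [this x hx, this y hy] at j
        exact absurd j (hi v)
    obtain ⟨w, hw, w1, w2⟩ : ∃ w ∈ S.erase v, (∀ x ∈ S, r v x → x = w) ∧
        ∀ x ∈ S.erase v, ∀ y ∈ S.erase v, r w x → r w y → x = y := by
      by_cases j : ∃ w ∈ S, r v w
      · obtain ⟨w, hw, j⟩ := j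
        refine ⟨w, mem_erase.mpr ⟨fun e => hi v (e ▸ j), hw⟩, fun x hx i => k x hx w hw i j,
          fun x hx y hy a b => ?_⟩
        rcases h2 w x y v a b (hs _ _ j) with l | l | l
        exacts [l, absurd l (ne_of_mem_erase hx), absurd l (ne_of_mem_erase hy)]
      · obtain ⟨w, hw, i⟩ := h1 _ ne
        exact ⟨w, hw, fun x hx l => absurd ⟨x, hx, l⟩ j, i⟩
    have sv : σ v = v := s1 v (by simp)
    have wv : w ≠ v := ne_of_mem_erase hw
    have cl : ∀ x ∈ S.erase v, σ x ∈ S.erase v := fun x hx => by_contra fun j =>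
      j ((σ.injective (s1 _ j)).symm ▸ hx)
    have fin : ∀ τ : Perm V, (∀ x, x ∉ S → τ x = x) → (∀ x ∈ S.erase v, τ.SameCycle x (σ x)) →
        (τ v = w ∨ τ w = v) → (∀ x ∈ S.erase v, r x (σ x) → τ x = σ x ∨ τ (σ x) = x) →
        ∃ σ : Perm V, (∀ v, v ∉ S → σ v = v) ∧ (∀ x ∈ S, ∀ y ∈ S, σ.SameCycle x y) ∧
          ∀ x ∈ S, ∀ y ∈ S, r x y → σ x = y ∨ σ y = x := by
      intro τ t1 t2 t3 t4
      have a : ∀ x ∈ S, τ.SameCycle w x := fun x hx => by
        by_cases e : x = v
        · rcases t3 with l | l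
          · exact Perm.SameCycle.symm ⟨1, by simp [e, l]⟩
          · exact ⟨1, by simp [e, l]⟩
        · exact same_of cl t2 hw (s2 w hw x (mem_erase.mpr ⟨e, hx⟩))
      refine ⟨τ, t1, fun x hx y hy => (a x hx).symm.trans (a y hy), fun x hx y hy j => ?_⟩
      by_cases e : x = v
      · subst e
        rwa [w1 y hy j]
      by_cases e' : y = v
      · subst e'
        rw [w1 x hx (hs _ _ j)]
        exact t3.symm
      rcases s3 x (mem_erase.mpr ⟨e, hx⟩) y (mem_erase.mpr ⟨e', hy⟩) j with rfl | rfl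
      · exact t4 x (mem_erase.mpr ⟨e, hx⟩) j
      · exact (t4 y (mem_erase.mpr ⟨e', hy⟩) (hs _ _ j)).symm
    have out : ∀ x, x ∉ S → x ≠ v ∧ x ≠ w ∧ σ x = x := fun x hx =>
      ⟨fun e => hx (e ▸ hv), fun e => hx (e ▸ mem_of_mem_erase hw),
        s1 x fun j => hx (mem_of_mem_erase j)⟩
    by_cases j : r w (σ w)
    · have a : ∀ x ∈ S.erase v, σ x ≠ w → (swap v w * σ) x = σ x := fun x hx e => by
        rw [Perm.mul_apply, swap_apply_of_ne_of_ne (ne_of_mem_erase (cl x hx)) e]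
      have b : (swap v w * σ) v = w := by simp [sv]
      refine fin (swap v w * σ) (fun x hx => ?_) (fun x hx => ?_) (.inl b) fun x hx i => ?_
      · obtain ⟨x1, x2, x3⟩ := out x hx
        rw [Perm.mul_apply, x3, swap_apply_of_ne_of_ne x1 x2]
      · by_cases e : σ x = w
        · exact ⟨2, by rw [zpow_two, Perm.mul_apply, Perm.mul_apply _ σ x, e, swap_apply_right, b]⟩
        · exact ⟨1, by rw [zpow_one, a x hx e]⟩
      · by_cases e : σ x = w
        · right
          rw [e] at i ⊢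
          rw [a w hw fun l => hi w (by rwa [l] at j)]
          exact w2 _ (cl w hw) x hx j (hs _ _ i)
        · exact .inl (a x hx e)
    · have a : ∀ x ∈ S.erase v, x ≠ w → (σ * swap v w) x = σ x := fun x hx e => by
        rw [Perm.mul_apply, swap_apply_of_ne_of_ne (ne_of_mem_erase hx) e]
      have b : (σ * swap v w) w = v := by simp [sv]
      refine fin (σ * swap v w) (fun x hx => ?_) (fun x hx => ?_) (.inr b) fun x hx i => ?_
      · obtain ⟨x1, x2, x3⟩ := out x hx
        rw [Perm.mul_apply, swap_apply_of_ne_of_ne x1 x2, x3]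
      · by_cases e : x = w
        · exact ⟨2, by rw [zpow_two, Perm.mul_apply, e, b, Perm.mul_apply, swap_apply_left]⟩
        · exact ⟨1, by rw [zpow_one, a x hx e]⟩
      · exact .inl (a x hx fun e => j (e ▸ i))

/-- A sparse edge set has a vertex of degree at most one. -/
lemma low (E : Finset (Sym2 V)) (S : Finset V) (h : (E.filter fun e => ∀ x ∈ e, x ∈ S).card < S.card) :
    ∃ v ∈ S, ∀ x ∈ S, ∀ y ∈ S, s(v, x) ∈ E → s(v, y) ∈ E → x = y := by
  by_contra k
  push Not at k
  set F := E.filter fun e => ∀ x ∈ e, x ∈ S with hF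
  have a : ∀ v ∈ S, 2 ≤ (F.filter (v ∈ ·)).card := fun v hv => by
    obtain ⟨x, hx, y, hy, e1, e2, n⟩ := k v hv
    refine one_lt_card.mpr ⟨s(v, x), ?_, s(v, y), ?_, fun e => n (Sym2.congr_right.mp e)⟩ <;>
      simp [*]
  have b : ∀ e ∈ F, (S.filter (· ∈ e)).card ≤ 2 := fun e _ => by
    induction e using Sym2.ind with
    | _ x y =>
    exact (card_le_card (t := {x, y}) fun u hu => by simpa using (mem_filter.mp hu).2).trans
      card_le_two
  have c := sum_card_bipartiteAbove_eq_sum_card_bipartiteBelow (s := S) (t := F) (· ∈ ·)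
  have d := sum_le_sum a
  have e := sum_le_sum b
  simp only [sum_const, smul_eq_mul, bipartiteAbove, bipartiteBelow] at c d e
  omega

end Pool.Agent.Lib.MP_3764f3_co.LT
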