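import Mathlib

/-! Integral transport plans from Hall's theorem. -/

set_option autoImplicit false

namespace Pool.Agent.Lib.MP_3764f3_co.LT

open Finset

variable {V : Type} [Fintype V] [DecidableEq V]

lemma plan (r : V → V → Prop) [DecidableRel r] (A B : Finset V) (p q : V → ℕ)
    (h : ∀ T ⊆ A, ∑ v ∈ T, p v ≤ ∑ v ∈ B.filter fun y => ∃ x ∈ T, r x y, q v) :
    ∃ m : V → V → ℕ, (∀ x y, 0 < m x y → x ∈ A ∧ y ∈ B ∧ r x y) ∧ (∀ x ∈ A, ∑ y, m x y = p x) ∧
      ∀ y, ∑ x, m x y ≤ q y := by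
  classical
  obtain ⟨f, f1, f2⟩ := (all_card_le_biUnion_card_iff_exists_injective
      (fun s : A.sigma fun a => range (p a) =>
        (B.filter fun y => r s.1.1 y).sigma fun y => range (q y))).mp fun P => by
    set T := P.image fun s => s.1.1 with hT
    have a1 : P.card ≤ (T.sigma fun a => range (p a)).card :=
      card_le_card_of_injOn (·.1) (fun s hs => mem_sigma.mpr ⟨mem_image_of_mem _ hs,
        (mem_sigma.mp s.2).2⟩) fun s _ t _ e => Subtype.ext e
    have a2 := h T fun a ha => by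
      obtain ⟨s, -, rfl⟩ := mem_image.mp ha
      exact (mem_sigma.mp s.2).1
    simp only [card_sigma, card_range] at a1
    refine a1.trans (a2.trans (le_trans (le_of_eq ?_) (card_le_card
      (s := (B.filter fun y => ∃ x ∈ T, r x y).sigma fun y => range (q y)) fun u hu => ?_)))
    · simp
    · obtain ⟨u1, u2⟩ := mem_sigma.mp hu
      obtain ⟨u3, x, hx, u4⟩ := mem_filter.mp u1
      obtain ⟨s, hs, rfl⟩ := mem_image.mp hx
      exact mem_biUnion.mpr ⟨s, hs, mem_sigma.mpr ⟨mem_filter.mpr ⟨u3, u4⟩, u2⟩⟩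
  refine ⟨fun x y => (univ.filter fun s => s.1.1 = x ∧ (f s).1 = y).card, fun x y k => ?_,
    fun x hx => ?_, fun y => ?_⟩
  · obtain ⟨s, hs⟩ := card_pos.mp k
    obtain ⟨-, rfl, rfl⟩ := mem_filter.mp hs
    exact ⟨(mem_sigma.mp s.2).1, mem_filter.mp (mem_sigma.mp (f2 s)).1⟩
  · simp only [← filter_filter]
    rw [← card_eq_sum_card_fiberwise (by simp), ← card_range (p x)]
    refine card_bij (fun s _ => s.1.2) (fun s hs => ?_) (fun s hs t ht e => ?_) fun i hi => ?_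
    · exact (mem_filter.mp hs).2 ▸ (mem_sigma.mp s.2).2
    · exact Subtype.ext (Sigma.ext ((mem_filter.mp hs).2.trans (mem_filter.mp ht).2.symm)
        (heq_of_eq e))
    · exact ⟨⟨⟨x, i⟩, mem_sigma.mpr ⟨hx, hi⟩⟩, by simp, rfl⟩
  · simp only [and_comm (b := _ = y), ← filter_filter]
    rw [← card_eq_sum_card_fiberwise (by simp), ← card_range (q y)]
    refine card_le_card_of_injOn (fun s => (f s).2) (fun s hs => ?_) fun s hs t ht e => ?_
    · exact (mem_filter.mp hs).2 ▸ (mem_sigma.mp (f2 s)).2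
    · exact f1 (Sigma.ext ((mem_filter.mp hs).2.trans (mem_filter.mp ht).2.symm) (heq_of_eq e))

/-- A subgraph with prescribed degrees on one side and degrees one or two on the other. -/
lemma cover (r : V → V → Prop) [DecidableRel r] (A : Finset V) (w : V → ℕ)
    (hw : ∑ v ∈ A, w v = 2 * Aᶜ.card)
    (h : ∀ T ⊆ A, ∑ v ∈ T, w v ≤ ∑ _v ∈ Aᶜ.filter fun y => ∃ x ∈ T, r x y, 2) :
    ∃ D : V → Finset V, (∀ a ∈ A, (D a).card = (w a + 1) / 2 ∧ ∀ y ∈ D a, y ∉ A ∧ r a y) ∧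
      (∀ y, (A.filter (y ∈ D ·)).card ≤ 2) ∧ ∀ y, y ∉ A → ∃ a ∈ A, y ∈ D a := by
  classical
  obtain ⟨m, m1, m2, m3⟩ := plan r A Aᶜ w (fun _ => 2) h
  have z : ∀ (U : Finset V) (g : V → ℕ), (∀ x, 0 < g x → x ∈ U) → ∑ x, g x = ∑ x ∈ U, g x :=
    fun U g k => (sum_subset (subset_univ _) fun x _ j => by_contra fun i =>
      j (k x (Nat.pos_of_ne_zero i))).symm
  have lo : ∀ g : V → ℕ, (univ.filter fun x => 0 < g x).card ≤ ∑ x, g x := fun g => by
    rw [card_filter]
    exact sum_le_sum fun x _ => by split_ifs <;> omega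
  have m4 : ∀ y ∈ Aᶜ, ∑ x, m x y = 2 := by
    refine (sum_eq_sum_iff_of_le fun y _ => m3 y).mp ?_
    rw [sum_const, smul_eq_mul, mul_comm, ← hw, sum_comm, ← sum_congr rfl m2,
      z A _ fun x k => ?_]
    · exact sum_congr rfl fun x _ => (z _ _ fun y k => (m1 x y k).2.1).symm
    · obtain ⟨y, -, j⟩ := exists_ne_zero_of_sum_ne_zero k.ne'
      exact (m1 x y (Nat.pos_of_ne_zero j)).1
  obtain ⟨n, n1, n2, n3⟩ := plan (fun y x => 0 < m x y) Aᶜ A (fun _ => 1) (fun x => (w x + 1) / 2)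
    fun T hT => by
      set N := A.filter fun x => ∃ y ∈ T, 0 < m x y with hN
      have a1 : ∑ y ∈ T, 2 = ∑ x ∈ N, ∑ y ∈ T, m x y := by
        rw [sum_comm]
        exact sum_congr rfl fun y hy => (m4 y (hT hy)).symm.trans
          (z _ _ fun x k => mem_filter.mpr ⟨(m1 x y k).1, y, hy, k⟩)
      have a2 : ∑ x ∈ N, ∑ y ∈ T, m x y ≤ ∑ x ∈ N, 2 * ((w x + 1) / 2) := sum_le_sum fun x hx => by
        have := sum_le_sum_of_subset (f := m x) (subset_univ T)
        have := m2 x (mem_filter.mp hx).1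
        omega
      rw [← mul_sum] at a2
      simp only [sum_const, smul_eq_mul] at a1 ⊢
      omega
  have ex : ∀ a, ∃ D : Finset V, (univ.filter fun y => 0 < n y a) ⊆ D ∧
      D ⊆ (univ.filter fun y => 0 < m a y) ∧ (a ∈ A → D.card = (w a + 1) / 2) := fun a => by
    have s : (univ.filter fun y => 0 < n y a) ⊆ univ.filter fun y => 0 < m a y := fun y hy =>
      mem_filter.mpr ⟨mem_univ _, (n1 y a (mem_filter.mp hy).2).2.2⟩
    by_cases ha : a ∈ A
    swap
    · exact ⟨_, subset_rfl, s, fun k => absurd k ha⟩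
    have a1 := m2 a ha
    rw [z (univ.filter fun y => 0 < m a y) _ fun y k => by simpa using k] at a1
    have a2 := sum_le_card_nsmul (univ.filter fun y => 0 < m a y) (m a) 2 fun y _ =>
      (single_le_sum (f := fun x => m x y) (fun _ _ => Nat.zero_le _) (mem_univ a)).trans (m3 y)
    have a3 := a1.symm.trans_le a2
    rw [smul_eq_mul] at a3
    obtain ⟨D, d1, d2, d3⟩ := exists_subsuperset_card_eq s ((lo _).trans (n3 a)) (by omega)
    exact ⟨D, d1, d2, fun _ => d3⟩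
  choose D d1 d2 d3 using ex
  refine ⟨D, fun a ha => ⟨d3 a ha, fun y hy => ?_⟩, fun y => ?_, fun y hy => ?_⟩
  · obtain ⟨-, a1, a2⟩ := m1 a y (mem_filter.mp (d2 a hy)).2
    exact ⟨mem_compl.mp a1, a2⟩
  · exact (card_le_card fun a ha => mem_filter.mpr ⟨mem_univ _,
      (mem_filter.mp (d2 a (mem_filter.mp ha).2)).2⟩).trans ((lo _).trans (m3 y))
  · obtain ⟨a, -, j⟩ := exists_ne_zero_of_sum_ne_zero
      ((n2 y (mem_compl.mpr hy)).trans_ne one_ne_zero)
    have j := Nat.pos_of_ne_zero j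
    exact ⟨a, (n1 y a j).2.1, d1 a (mem_filter.mpr ⟨mem_univ _, j⟩)⟩

end Pool.Agent.Lib.MP_3764f3_co.LT
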