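import Pool.Agent.Lib.MP_3764f3_co.MMain
import Pool.Agent.Lib.MP_3764f3_co.MStar
import Pool.Agent.Lib.MP_3764f3_co.U.Flow
import Pool.Agent.Lib.MP_3764f3_co.U.Order
import Pool.Agent.Lib.MP_3764f3_co.U.Plan

/-! Partitions into a prescribed number of non-crossing plane paths. -/

set_option autoImplicit false

namespace Pool.Agent.Lib.MP_3764f3_co.LT

open Finset Pool.Agent.Lib.MP_3764f3_co.DC

variable {V : Type} [Fintype V] [DecidableEq V] {pos : V → ℂ} {G : V → V → ℝ → ℂ}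

omit [Fintype V] [DecidableEq V] in
lemma X.of_eq (h : Dr pos G) {a b c d a' b' c' d' : V} (ab : a ≠ b) (cd : c ≠ d)
    (e1 : s(a, b) = s(a', b')) (e2 : s(c, d) = s(c', d')) (x : X G a b c d) : X G a' b' c' d' := by
  have x1 : X G a b c' d' := by
    rcases Sym2.eq_iff.mp e2 with i | i
    · rwa [← i.1, ← i.2]
    · rw [← i.1, ← i.2]
      exact x.rev h cd
  rcases Sym2.eq_iff.mp e1 with i | i
  · rwa [← i.1, ← i.2]
  · rw [← i.1, ← i.2]
    exact (x1.symm.rev h ab).symm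

theorem Dr.part (h : Dr pos G) (hn : 2 ≤ Fintype.card V) (k : ℕ) (k5 : Fintype.card V ≤ 5 * k)
    (k2 : 2 * k ≤ Fintype.card V) :
    ∃ τ : Equiv.Perm V, τ.IsCycle ∧ (∀ v, τ v ≠ v) ∧ ∃ K : Finset V, K.card = k ∧
      (∀ v ∈ K, τ v ∉ K) ∧ ∀ v ∉ K, ∀ u ∉ K, v ≠ u → ¬ X G v (τ v) u (τ u) := by
  classical
  have : Nontrivial V := Fintype.one_lt_card_iff_nontrivial.mp hn
  obtain ⟨r⟩ : Nonempty V := inferInstance
  obtain ⟨rk, In, a⟩ := h.api r
  obtain ⟨A, b1, b2, b3⟩ := top_set rk (univ.erase r)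
    (fun x hx y hy => a.inj x y (ne_of_mem_erase hx) (ne_of_mem_erase hy))
    (Fintype.card V - k - (Fintype.card V - 3 * k))
    (by rw [card_erase_of_mem (mem_univ r), card_univ]; omega)
  have rA : r ∉ A := fun k => ne_of_mem_erase (b1 k) rfl
  obtain ⟨A3, s3, c3⟩ := exists_subset_card_eq (s := A) (n := Fintype.card V - 3 * k) (by omega)
  have c4 := card_sdiff_of_subset s3
  obtain ⟨A2, s2, c2⟩ := exists_subset_card_eq (s := A \ A3) (n := 3 * k - Fintype.card V) (by omega)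
  have c5 := card_sdiff_of_subset s2
  set c : V → ℕ := fun v => if v ∈ A then 1 else 0 with hc
  set w : V → ℕ := fun v => if v ∈ A3 then 3 else if v ∈ (A \ A3) \ A2 then 1 else 2 with hw
  have c1 : ∀ v ∈ A, c v = 1 := fun v k => if_pos k
  have c0 : ∀ v, v ∉ A → c v = 0 := fun v k => if_neg k
  have w2 : ∀ v, v ∉ A → w v = 2 := fun v k => by
    simp only [hw]
    rw [if_neg fun j => k (s3 j), if_neg fun j => k (mem_sdiff.mp (mem_sdiff.mp j).1).1]
  have sm : ∀ g : ℕ → ℕ, ∑ v ∈ A, g (w v) =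
      ((A \ A3) \ A2).card * g 1 + A2.card * g 2 + A3.card * g 3 := fun g => by
    rw [← sum_sdiff s3, ← sum_sdiff s2,
      sum_congr (s₁ := A3) rfl fun v k => show g (w v) = g 3 by simp only [hw, if_pos k],
      sum_congr (s₁ := A2) rfl fun v k => show g (w v) = g 2 by
        simp only [hw]
        rw [if_neg (mem_sdiff.mp (s2 k)).2, if_neg fun j => (mem_sdiff.mp j).2 k],
      sum_congr (s₁ := (A \ A3) \ A2) rfl fun v k => show g (w v) = g 1 by
        simp only [hw, if_neg (mem_sdiff.mp (mem_sdiff.mp k).1).2, if_pos k]]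
    simp
  have tot : ∑ v ∈ A, w v = 2 * Aᶜ.card := by
    rw [sm fun n => n, card_compl]
    omega
  have two : ∀ U ⊆ Aᶜ, ∑ v ∈ U, w v = ∑ _v ∈ U, 2 := fun U hU =>
    sum_congr rfl fun v hv => w2 v (mem_compl.mp (hU hv))
  obtain ⟨σ, k1, k4, k3⟩ := flow (c := c) (R := Rc G)
    (fun e f k => k.elim (fun k => Or.inl k.symm) fun k => Or.inr fun x => k x.symm)
    (fun S J ⟨p, hp⟩ => by
      have or : ∀ q : V × V, c q.1 < c q.2 ↔ q.1 ∉ A ∧ q.2 ∈ A := fun q => by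
        simp only [hc]
        split_ifs <;> simp [*]
      obtain ⟨p1, p2, p3, p4⟩ := hp
      have p5 := (or p).mp p3
      rw [c0 _ p5.1, c1 _ p5.2] at p4
      convert red_ne h a (a.star h) (S \ A) (S ∩ A) (fun k => rA (mem_inter.mp k).2)
        ⟨p.1, mem_sdiff.mpr ⟨p1, p5.1⟩⟩ ⟨p.2, mem_inter.mpr ⟨p2, p5.2⟩⟩ (fun x hx y hy => by
          by_cases e : x = r
          · exact .inl e
          · exact .inr (b3 x (mem_erase.mpr ⟨e, mem_univ x⟩) (mem_sdiff.mp hx).2 y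
              (mem_inter.mp hy).2)) using 1
      ext q
      simp only [Wd, Set.mem_ofPred_eq, mem_sdiff, mem_inter, or]
      exact ⟨fun k => ⟨⟨k.1, k.2.2.1.1⟩, k.2.1, k.2.2.1.2⟩, fun k => ⟨k.1.1, k.2.1, ⟨k.1.2, k.2.2⟩,
        by rwa [c0 _ k.1.2, c1 _ k.2.2]⟩⟩) A c1 c0 w
    (fun v => by simp only [hw]; split_ifs <;> omega) (by
      rw [tot, two _ subset_rfl, sum_const, smul_eq_mul, mul_comm])
  obtain ⟨D, d1, d2, d3⟩ := cover (fun x y => s(x, y) ∈ σ) A w tot fun T hT =>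
    (k4 T hT).trans_eq (two _ (filter_subset _ _))
  have th : ∀ (U : Finset V) x y z, U.card ≤ 2 → x ∈ U → y ∈ U → z ∈ U → x = y ∨ x = z ∨ y = z :=
    fun U x y z k hx hy hz => by_contra fun j => by
      push Not at j
      exact k.not_gt (two_lt_card_iff.mpr ⟨x, y, z, hx, hy, hz, j⟩)
  have dA : ∀ x ∈ A, ∀ y ∈ D x, y ∉ A := fun x hx y hy => ((d1 x hx).2 y hy).1
  obtain ⟨τ, -, t1, t2⟩ := order (fun x y => x ∈ A ∧ y ∈ D x ∨ y ∈ A ∧ x ∈ D y)
    (fun _ _ k => k.symm) (fun x k => k.elim (fun k => dA x k.1 x k.2 k.1) fun k => dA x k.1 x k.2 k.1)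
    (fun u x y z hx hy hz => by
      by_cases k : u ∈ A
      · have m : ∀ x, u ∈ A ∧ x ∈ D u ∨ x ∈ A ∧ u ∈ D x → x ∈ D u := fun x j =>
          (j.resolve_right fun j => dA x j.1 u j.2 k).2
        refine th (D u) x y z ?_ (m x hx) (m y hy) (m z hz)
        rw [(d1 u k).1]
        simp only [hw]
        split_ifs <;> omega
      · have m : ∀ x, u ∈ A ∧ x ∈ D u ∨ x ∈ A ∧ u ∈ D x → x ∈ A.filter (u ∈ D ·) := fun x j =>
          mem_filter.mpr (j.resolve_left fun j => k j.1)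
        exact th _ x y z (d2 u) (m x hx) (m y hy) (m z hz))
    (fun S hS => by
      obtain ⟨v, hv, k⟩ := low ((A.sigma D).image fun p => s(p.1, p.2)) S
        (k3 S hS _ (fun e he => by
          obtain ⟨p, hp, rfl⟩ := mem_image.mp (mem_filter.mp he).1
          exact ((d1 _ (mem_sigma.mp hp).1).2 _ (mem_sigma.mp hp).2).2) fun e he => by
          obtain ⟨e1, e2⟩ := mem_filter.mp he
          obtain ⟨p, hp, rfl⟩ := mem_image.mp e1
          obtain ⟨p1, p2⟩ := mem_sigma.mp hp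
          exact ⟨p.1, e2 _ (by simp), p.2, e2 _ (by simp), p1, dA _ p1 _ p2, rfl⟩)
      have m : ∀ x, v ∈ A ∧ x ∈ D v ∨ x ∈ A ∧ v ∈ D x →
          s(v, x) ∈ (A.sigma D).image fun p => s(p.1, p.2) := fun x j => j.elim
        (fun j => mem_image.mpr ⟨⟨v, x⟩, mem_sigma.mpr j, rfl⟩)
        fun j => mem_image.mpr ⟨⟨x, v⟩, mem_sigma.mpr j, Sym2.eq_swap⟩
      exact ⟨v, hv, fun x hx y hy a b => k x hx y hy (m x a) (m y b)⟩) _ univ rfl
  have nf : ∀ v, τ v ≠ v := fun v k => by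
    obtain ⟨u, hu⟩ := exists_ne v
    exact hu ((t1 v (mem_univ _) u (mem_univ _)).eq_of_left k).symm
  set φ : (Σ _ : V, V) → V := fun p => if τ p.1 = p.2 then p.1 else p.2 with hφ
  have f1 : ∀ p ∈ A.sigma D, s(φ p, τ (φ p)) = s(p.2, p.1) := fun p hp => by
    simp only [hφ]
    split_ifs with k
    · rw [k, Sym2.eq_swap]
    · rw [(t2 _ (mem_univ _) _ (mem_univ _) (.inl (mem_sigma.mp hp))).resolve_left k]
  have f2 : ∀ p ∈ A.sigma D, c (p.2, p.1).1 < c (p.2, p.1).2 := fun p hp => by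
    obtain ⟨p1, p2⟩ := mem_sigma.mp hp
    rw [c0 _ (dA _ p1 _ p2), c1 _ p1]
    exact one_pos
  have f3 : ∀ p q : Σ _ : V, V, (p.2, p.1) = (q.2, q.1) → p = q := fun ⟨_, _⟩ ⟨_, _⟩ e => by
    simp_all
  refine ⟨τ, ⟨r, nf r, fun y _ => t1 r (mem_univ _) y (mem_univ _)⟩, nf, ((A.sigma D).image φ)ᶜ,
    ?_, fun v hv j => ?_, ?_⟩
  · rw [card_compl, card_image_of_injOn fun p hp q hq e => f3 p q (pair_eq (f2 p hp) (f2 q hq)
      (by rw [← f1 p hp, ← f1 q hq, e])), card_sigma, sum_congr rfl fun v k => (d1 v k).1,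
      sm fun n => (n + 1) / 2]
    omega
  · obtain ⟨p, hp, e⟩ : ∃ p ∈ A.sigma D, τ v ∈ s(p.2, p.1) := by
      by_cases i : τ v ∈ A
      · obtain ⟨y, hy⟩ := card_pos.mp (show 0 < (D (τ v)).card by
          rw [(d1 _ i).1]
          simp only [hw]
          split_ifs <;> omega)
        exact ⟨⟨τ v, y⟩, mem_sigma.mpr ⟨i, hy⟩, by simp⟩
      · obtain ⟨x, hx, hy⟩ := d3 _ i
        exact ⟨⟨x, τ v⟩, mem_sigma.mpr ⟨hx, hy⟩, by simp⟩
    rw [← f1 p hp, Sym2.mem_iff] at e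
    rcases e with e | e
    · exact mem_compl.mp j (e ▸ mem_image_of_mem φ hp)
    · exact mem_compl.mp hv (τ.injective e ▸ mem_image_of_mem φ hp)
  · simp only [mem_compl, not_not, mem_image]
    rintro _ ⟨p, hp, rfl⟩ _ ⟨q, hq, rfl⟩ n x
    have m : ∀ p ∈ A.sigma D, s(p.1, p.2) ∈ σ := fun p hp =>
      ((d1 _ (mem_sigma.mp hp).1).2 _ (mem_sigma.mp hp).2).2
    exact ((k1 _ (m p hp) _ (m q hq)).2.2 _ _ (f2 p hp) (f2 q hq) Sym2.eq_swap Sym2.eq_swap).elim
      (fun j => n (by rw [f3 p q j])) fun j =>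
        j (x.of_eq h (nf _).symm (nf _).symm (f1 p hp) (f1 q hq))

end Pool.Agent.Lib.MP_3764f3_co.LT
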